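import Mathlib

namespace Pool.Agent.Results.MP_c084cb_lc.OneCopy

open Finset

/-- The weights `w(x,y)`. -/
noncomputable def w (a : ℝ) (x y : Fin 4) : ℝ :=
  if x < 2 ∧ y < 2 then 1 / 8 else if 2 ≤ x ∧ 2 ≤ y then (if x = y then 1 / 4 else 0) else a

/-- Eve's variable `Z` as a function of `(X,Y)`. -/
def Z (x y : Fin 4) : Fin 2 ⊕ Fin 4 × Fin 4 :=
  if x < 2 ∧ y < 2 then .inl (Fin.ofNat 2 (x + y)) else if 2 ≤ x ∧ 2 ≤ y then .inl (Fin.ofNat 2 x) else .inr (x, y)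

/-- A stochastic map between finite sets. -/
def Stoch {α β : Type} [Fintype β] (A : α → β → ℝ) : Prop := (∀ x y, 0 ≤ A x y) ∧ ∀ x, ∑ y, A x y = 1

/-- Joint law of Alice's binarization `A`, Bob's processed variable `B` and the output of Eve's channel `C`. -/
noncomputable def P {J K : Type} (a : ℝ) (A : Fin 4 → Fin 2 → ℝ) (B : Fin 4 → J → ℝ)
    (C : Fin 2 ⊕ Fin 4 × Fin 4 → K → ℝ) (i : Fin 2) (j : J) (k : K) : ℝ :=
  ∑ x, ∑ y, w a x y / (1 + 8 * a) * A x i * B y j * C (Z x y) k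

noncomputable def ν (e : Fin 2 → Fin 2 → ℝ) (m : Fin 2 → Fin 4 → Fin 4 → ℝ) (k : Fin 2) (x y : Fin 4) : ℝ :=
  match Z x y with
  | .inl z => w 0 x y * e z k
  | .inr _ => m k x y

noncomputable def ch (a : ℝ) (e : Fin 2 → Fin 2 → ℝ) (m : Fin 2 → Fin 4 → Fin 4 → ℝ) :
    Fin 2 ⊕ Fin 4 × Fin 4 → Fin 2 ⊕ Fin 4 × Fin 4 → ℝ
  | .inl z, .inl k => e z k
  | .inl _, .inr _ => 0
  | .inr p, .inl k => m k p.1 p.2 / a
  | .inr p, .inr q => if p = q then 1 - (m 0 p.1 p.2 + m 1 p.1 p.2) / a else 0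

lemma build {a : ℝ} (ha : 0 < a) {A : Fin 4 → Fin 2 → ℝ} (hA : Stoch A) (e : Fin 2 → Fin 2 → ℝ)
    (he : Stoch e) (m : Fin 2 → Fin 4 → Fin 4 → ℝ) (h0 : ∀ k x y, 0 ≤ m k x y) (h1 : ∀ x y, m 0 x y + m 1 x y ≤ a)
    (μ : Fin 2 → ℝ) (h : ∀ k y, ∑ x, ν e m k x y * A x 0 = μ k * ∑ x, ν e m k x y) :
    ∃ (K : Type) (_ : Fintype K) (C : Fin 2 ⊕ Fin 4 × Fin 4 → K → ℝ), Stoch C ∧
      ∀ (J : Type) (_ : Fintype J) (B : Fin 4 → J → ℝ), Stoch B → ∀ k i j,
      P a A B C i j k * ∑ i', ∑ j', P a A B C i' j' k = (∑ j', P a A B C i j' k) * ∑ i', P a A B C i' j k := by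
  have a1 : ∀ x, A x 1 = 1 - A x 0 := fun x => by have := hA.2 x; rw [Fin.sum_univ_two] at this; linarith
  refine ⟨_, inferInstance, ch a e m, ⟨?_, ?_⟩, fun J _ B _ k => ?_⟩
  · rintro (z | p) (k | q)
    · exact he.1 _ _
    · exact le_rfl
    · exact div_nonneg (h0 ..) ha.le
    · simp only [ch]
      split_ifs
      · exact sub_nonneg.2 ((div_le_one ha).2 (h1 ..))
      · rfl
  · rintro (z | p)
    · simpa [ch] using he.2 z
    · simp [ch, add_div]
  suffices ∃ (c : Fin 2 → ℝ) (Q : J → ℝ), ∀ i j, P a A B (ch a e m) i j k = c i * Q j by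
    obtain ⟨c, Q, h⟩ := this
    intro i j
    simp only [h, ← mul_sum, ← sum_mul]
    ring
  rcases k with k | ⟨x, y⟩
  · refine ⟨![μ k, 1 - μ k], fun j => ∑ y, (∑ x, ν e m k x y) * B y j / (1 + 8 * a), fun i j => ?_⟩
    rw [P, sum_comm, mul_sum]
    refine sum_congr rfl fun y _ => ?_
    have : ∀ x, w a x y / (1 + 8 * a) * A x i * B y j * ch a e m (Z x y) (.inl k) =
        ν e m k x y * A x i * (B y j / (1 + 8 * a)) := fun x => by
      unfold ν Z w
      split_ifs <;> simp only [ch] <;> field_simp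
    simp only [this, ← sum_mul]
    fin_cases i
    · simp [h, mul_div_assoc, mul_assoc]
    · simp only [Fin.mk_one, a1, mul_sub, sum_sub_distrib, h, mul_one, Matrix.cons_val_one, Matrix.cons_val_zero]
      ring
  · refine ⟨A x, fun j => w a x y / (1 + 8 * a) * B y j * ch a e m (Z x y) (.inr (x, y)), fun i j => ?_⟩
    rw [P, sum_eq_single x, sum_eq_single y]
    · ring
    · intro y' _ h; unfold Z; split_ifs <;> simp [ch, h]
    · simp
    · intro x' _ h
      refine sum_eq_zero fun y' _ => ?_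
      unfold Z; split_ifs <;> simp [ch, h]
    · simp

/-- For `a ≥ 1/4` and one copy (`N = 1`): for every binarization of `X` Eve has a channel given whose output the
binarization is conditionally independent of every stochastic image of `Y` (in particular of `Y` itself and of every
binarization of `Y`). -/
theorem result (a : ℝ) (ha : 1 / 4 ≤ a) (A : Fin 4 → Fin 2 → ℝ) (hA : Stoch A) :
    ∃ (K : Type) (_ : Fintype K) (C : Fin 2 ⊕ Fin 4 × Fin 4 → K → ℝ), Stoch C ∧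
      ∀ (J : Type) (_ : Fintype J) (B : Fin 4 → J → ℝ), Stoch B → ∀ k i j,
      P a A B C i j k * ∑ i', ∑ j', P a A B C i' j' k = (∑ j', P a A B C i j' k) * ∑ i', P a A B C i' j k := by
  have key : ∀ x y : ℝ, |x| ≤ |y| → ∃ r, -1 ≤ r ∧ r ≤ 1 ∧ x = r * y := fun x y h => by
    rcases eq_or_ne y 0 with rfl | hy
    · exact ⟨0, by norm_num, by norm_num, by simpa using h⟩
    · have := abs_le.1 (show |x / y| ≤ 1 by rw [abs_div]; exact div_le_one_of_le₀ h (abs_nonneg _))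
      exact ⟨x / y, this.1, this.2, by field_simp⟩
  rcases le_total |A 2 0 - A 3 0| |A 0 0 - A 1 0| with h | h
  · obtain ⟨r, h1, h2, h3⟩ := key _ _ h
    refine build (by linarith) hA ![![1, 0], ![1, 0]] ⟨by simp [Fin.forall_fin_two], by simp [Fin.forall_fin_two]⟩
      ![!![0, 0, (1 - r) / 8, (1 + r) / 8; 0, 0, (1 + r) / 8, (1 - r) / 8; 1 / 8, 1 / 8, 0, 0; 1 / 8, 1 / 8, 0, 0], 0]
      (fun k x y => by fin_cases k <;> fin_cases x <;> fin_cases y <;> simp <;> linarith)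
      (fun x y => by fin_cases x <;> fin_cases y <;> simp <;> linarith)
      (fun _ => (A 0 0 + A 1 0 + A 2 0 + A 3 0) / 4) fun k y => ?_
    rw [sub_eq_iff_eq_add] at h3
    fin_cases k <;> fin_cases y <;> simp +decide [ν, Z, w, Fin.sum_univ_four, h3] <;> ring
  obtain ⟨r, h1, h2, h3⟩ := key _ _ h
  rw [sub_eq_iff_eq_add] at h3
  rcases le_total 0 r with h4 | h4
  · refine build (by linarith) hA ![![1, 0], ![0, 1]] ⟨by simp [Fin.forall_fin_two], by simp [Fin.forall_fin_two]⟩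
      ![!![0, 0, 0, 0; 0, 0, 1 / 4, 0; (1 - r) / 8, 1 / 8, 0, 0; r / 8, 0, 0, 0],
        !![0, 0, 0, 1 / 4; 0, 0, 0, 0; r / 8, 0, 0, 0; (1 - r) / 8, 1 / 8, 0, 0]]
      (fun k x y => by fin_cases k <;> fin_cases x <;> fin_cases y <;> simp <;> linarith)
      (fun x y => by fin_cases x <;> fin_cases y <;> simp <;> linarith)
      ![(A 1 0 + A 2 0) / 2, (A 0 0 + A 3 0) / 2] fun k y => ?_
    fin_cases k <;> fin_cases y <;> simp +decide [ν, Z, w, Fin.sum_univ_four, h3] <;> ring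
  · refine build (by linarith) hA ![![1, 0], ![0, 1]] ⟨by simp [Fin.forall_fin_two], by simp [Fin.forall_fin_two]⟩
      ![!![0, 0, 1 / 4, 0; 0, 0, 0, 0; 1 / 8, (1 + r) / 8, 0, 0; 0, -r / 8, 0, 0],
        !![0, 0, 0, 0; 0, 0, 0, 1 / 4; 0, -r / 8, 0, 0; 1 / 8, (1 + r) / 8, 0, 0]]
      (fun k x y => by fin_cases k <;> fin_cases x <;> fin_cases y <;> simp <;> linarith)
      (fun x y => by fin_cases x <;> fin_cases y <;> simp <;> linarith)
      ![(A 0 0 + A 2 0) / 2, (A 1 0 + A 3 0) / 2] fun k y => ?_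
    fin_cases k <;> fin_cases y <;> simp +decide [ν, Z, w, Fin.sum_univ_four, h3] <;> ring

end Pool.Agent.Results.MP_c084cb_lc.OneCopy
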